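import Mathlib

/-!
# The eternal vertex colouring game: Bob may need three rounds

For the star `K_{1,4}` and `k = 4` colours Bob wins the eternal vertex colouring game, but he cannot
force a win within two rounds.
-/

set_option autoImplicit false

namespace Pool.Agent.Results.MP_16080b_co.ThreeRounds

/-- a position: the current (partial) colouring, the vertices already picked in the current round,
and whether it is Bob's turn -/
structure Pos (V : Type) (k : ℕ) where
  /-- the colours (`none` for an uncoloured vertex) -/
  col : V → Option (Fin k)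
  /-- the vertices picked in the current round -/
  picked : V → Bool
  /-- `true` if it is Bob's turn -/
  bob : Bool

section Game

variable {V : Type} [Fintype V] [DecidableEq V] (G : SimpleGraph V) {k : ℕ}

/-- the initial position: nothing is coloured, Alice moves -/
def start (V : Type) (k : ℕ) : Pos V k := ⟨fun _ => none, fun _ => false, false⟩

/-- `v` may be given the colour `x`: it is not the present colour of `v` and not the colour of a
neighbour -/
def Allowed (p : Pos V k) (v : V) (x : Fin k) : Prop :=
  p.col v ≠ some x ∧ ∀ u, G.Adj v u → p.col u ≠ some x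

/-- the position after the mover picks `v` and gives it the colour `x`; if all vertices have now
been picked in this round, a new round begins -/
def next (p : Pos V k) (v : V) (x : Fin k) : Pos V k where
  col := Function.update p.col v (some x)
  picked := if ∀ u, Function.update p.picked v true u = true then fun _ => false
    else Function.update p.picked v true
  bob := !p.bob

/-- Bob can force a win within the next `t` turns -/
def BobForces : ℕ → Pos V k → Prop
  | 0, _ => False
  | t + 1, p =>
    if p.bob then
      ∃ v, p.picked v = false ∧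
        ((∀ x, ¬ Allowed G p v x) ∨ ∃ x, Allowed G p v x ∧ BobForces t (next p v x))
    else
      ∀ v, p.picked v = false → ∀ x, Allowed G p v x → BobForces t (next p v x)

/-- the positions that can occur when Alice follows the strategy `σ` -/
inductive Reach (σ : Pos V k → V × Fin k) : Pos V k → Prop
  | start : Reach σ (start V k)
  | alice {p : Pos V k} : Reach σ p → p.bob = false → Reach σ (next p (σ p).1 (σ p).2)
  | bob {p : Pos V k} {v : V} {x : Fin k} : Reach σ p → p.bob = true → p.picked v = false →
      Allowed G p v x → Reach σ (next p v x)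

/-- Alice has a winning strategy with `k` colours: her own moves are always legal, and Bob never has
a pickable vertex without an allowed colour -/
def AliceWins (k : ℕ) : Prop :=
  ∃ σ : Pos V k → V × Fin k, ∀ p, Reach G σ p →
    if p.bob then ∀ v, p.picked v = false → ∃ x, Allowed G p v x
    else p.picked (σ p).1 = false ∧ Allowed G p (σ p).1 (σ p).2

/-- `χ_g^∞(G)`: the least number of colours for which Alice has a winning strategy -/
noncomputable def eternalChi : ℕ := sInf {k | AliceWins G k}

/-- `r(G, k)`: the least `r` such that Bob can force a win within the first `r` rounds, i.e. within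
the first `r * |V|` turns -/
noncomputable def rounds (k : ℕ) : ℕ :=
  sInf {r | BobForces G (r * Fintype.card V) (start V k)}

variable {G}

theorem not_aliceWins {t : ℕ} (h : BobForces G t (start V k)) : ¬ AliceWins G k := by
  rintro ⟨σ, hσ⟩
  have key : ∀ t (p : Pos V k), Reach G σ p → ¬ BobForces G t p := by
    intro t
    induction t with
    | zero => intro p _ h; exact h
    | succ t ih =>
      intro p hp h
      have hs := hσ p hp
      unfold BobForces at h
      rcases hb : p.bob with _ | _
      · rw [hb] at h hs
        simp only [Bool.false_eq_true, if_false] at h hs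
        exact ih _ (Reach.alice hp hb) (h _ hs.1 _ hs.2)
      · rw [hb] at h hs
        simp only [if_true] at h hs
        obtain ⟨v, hv, h | ⟨x, hx, h⟩⟩ := h
        · obtain ⟨x, hx⟩ := hs v hv
          exact h x hx
        · exact ih _ (Reach.bob hp hb hv hx) h
  exact key t _ Reach.start h

theorem bobForces_succ {t : ℕ} : ∀ {p : Pos V k}, BobForces G t p → BobForces G (t + 1) p := by
  induction t with
  | zero => intro p h; exact h.elim
  | succ t ih =>
    intro p h
    unfold BobForces at h ⊢
    rcases hb : p.bob with _ | _
    · rw [hb] at h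
      simp only [Bool.false_eq_true, if_false] at h ⊢
      exact fun v hv x hx => ih (h v hv x hx)
    · rw [hb] at h
      simp only [if_true] at h ⊢
      obtain ⟨v, hv, h | ⟨x, hx, h⟩⟩ := h
      · exact ⟨v, hv, Or.inl h⟩
      · exact ⟨v, hv, Or.inr ⟨x, hx, ih h⟩⟩

theorem bobForces_mono {s t : ℕ} (hst : s ≤ t) {p : Pos V k} (h : BobForces G s p) :
    BobForces G t p := by
  induction hst with
  | refl => exact h
  | step _ ih => exact bobForces_succ ih

/-- with more colours than vertices Alice wins -/
theorem aliceWins_of_card [Nonempty V] (hk : Fintype.card V < k) : AliceWins G k := by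
  have hallowed : ∀ (p : Pos V k) (v : V), ∃ x, Allowed G p v x := by
    intro p v
    by_contra hcon
    push Not at hcon
    have h1 : ∀ x : Fin k, ∃ u, p.col u = some x := by
      intro x
      by_contra h2
      push Not at h2
      exact hcon x ⟨h2 v, fun u _ => h2 u⟩
    choose f hf using h1
    have hinj : Function.Injective f := by
      intro x y hxy
      have := hf x
      rw [hxy, hf y] at this
      exact (Option.some_injective _ this).symm
    have := Fintype.card_le_of_injective f hinj
    rw [Fintype.card_fin] at this
    omega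
  classical
  let σ : Pos V k → V × Fin k := fun p =>
    if h : ∃ v, p.picked v = false then (h.choose, (hallowed p h.choose).choose)
    else (Classical.arbitrary V, (hallowed p (Classical.arbitrary V)).choose)
  refine ⟨σ, ?_⟩
  have hfree : ∀ p, Reach G σ p → ∃ v, p.picked v = false := by
    have hnext : ∀ (p : Pos V k) v x, ∃ u, (next p v x).picked u = false := by
      intro p v x
      unfold next
      by_cases h : ∀ u, Function.update p.picked v true u = true
      · simp only [if_pos h]
        exact ⟨v, trivial⟩
      · simp only [if_neg h]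
        push Not at h
        obtain ⟨u, hu⟩ := h
        exact ⟨u, by simpa using hu⟩
    intro p hp
    cases hp with
    | start => exact ⟨Classical.arbitrary V, rfl⟩
    | alice _ _ => exact hnext _ _ _
    | bob _ _ _ _ => exact hnext _ _ _
  intro p hp
  rcases hb : p.bob with _ | _
  · simp only [Bool.false_eq_true, if_false]
    have h := hfree p hp
    have hσ : σ p = (h.choose, (hallowed p h.choose).choose) := dif_pos h
    rw [hσ]
    exact ⟨h.choose_spec, (hallowed p h.choose).choose_spec⟩
  · simp only [if_true]
    exact fun v _ => hallowed p v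

end Game

/-! ### The star `K_{1,4}` -/

/-- the star with centre `0` and leaves `1, 2, 3, 4` -/
def star : SimpleGraph (Fin 5) where
  Adj u v := u ≠ v ∧ (u = 0 ∨ v = 0)
  symm := ⟨fun _ _ h => ⟨h.1.symm, h.2.symm⟩⟩
  loopless := ⟨fun _ h => h.1 rfl⟩

/-- five natural numbers (colours `1, ..., k`, and `0` for uncoloured) and five flags -/
structure St where
  /-- colour of `0` -/
  a : ℕ
  /-- colour of `1` -/
  b : ℕ
  /-- colour of `2` -/
  c : ℕ
  /-- colour of `3` -/
  d : ℕ
  /-- colour of `4` -/
  e : ℕ
  /-- flag of `0` -/
  a' : Bool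
  /-- flag of `1` -/
  b' : Bool
  /-- flag of `2` -/
  c' : Bool
  /-- flag of `3` -/
  d' : Bool
  /-- flag of `4` -/
  e' : Bool
  /-- whose turn -/
  t : Bool

/-- colour of a vertex -/
def St.get (s : St) : ℕ → ℕ
  | 0 => s.a
  | 1 => s.b
  | 2 => s.c
  | 3 => s.d
  | _ => s.e

/-- select one of five flags -/
def fl (a' b' c' d' e' : Bool) : ℕ → Bool
  | 0 => a'
  | 1 => b'
  | 2 => c'
  | 3 => d'
  | _ => e'

/-- flag of a vertex -/
def St.flag (s : St) (v : ℕ) : Bool := fl s.a' s.b' s.c' s.d' s.e' v

/-- start a new round if everything has been picked -/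
def fin (a b c d e : ℕ) (a' b' c' d' e' t : Bool) : St :=
  match a' && (b' && (c' && (d' && e'))) with
  | true => ⟨a, b, c, d, e, false, false, false, false, false, t⟩
  | false => ⟨a, b, c, d, e, a', b', c', d', e', t⟩

/-- the next position -/
def St.next (s : St) (v : ℕ) (x : ℕ) : St :=
  match v with
  | 0 => fin x s.b s.c s.d s.e true s.b' s.c' s.d' s.e' (!s.t)
  | 1 => fin s.a x s.c s.d s.e s.a' true s.c' s.d' s.e' (!s.t)
  | 2 => fin s.a s.b x s.d s.e s.a' s.b' true s.d' s.e' (!s.t)
  | 3 => fin s.a s.b s.c x s.e s.a' s.b' s.c' true s.e' (!s.t)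
  | _ => fin s.a s.b s.c s.d x s.a' s.b' s.c' s.d' true (!s.t)

/-- is the colour `x` allowed at `v`? -/
def St.ok (s : St) (v : ℕ) (x : ℕ) : Bool :=
  match v with
  | 0 => !(Nat.beq s.a x) && (!(Nat.beq s.b x) && (!(Nat.beq s.c x) && (!(Nat.beq s.d x) &&
      !(Nat.beq s.e x))))
  | 1 => !(Nat.beq s.b x) && !(Nat.beq s.a x)
  | 2 => !(Nat.beq s.c x) && !(Nat.beq s.a x)
  | 3 => !(Nat.beq s.d x) && !(Nat.beq s.a x)
  | _ => !(Nat.beq s.e x) && !(Nat.beq s.a x)

/-- number to colour -/
def toCol (k : ℕ) (n : ℕ) : Option (Fin k) :=
  if h : 0 < n ∧ n ≤ k then some ⟨n - 1, by omega⟩ else none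

/-- the position encoded by `s` -/
def toPos (k : ℕ) (s : St) : Pos (Fin 5) k where
  col v := toCol k (s.get v)
  picked v := s.flag v
  bob := s.t

/-- the list `1, ..., k` -/
def cols (k : ℕ) : List ℕ := (List.range k).map (· + 1)

/-- is the colour `x` allowed at `v`? -/
def okc (v x a b c d e : ℕ) : Bool :=
  match v with
  | 0 => match Nat.beq a x, Nat.beq b x, Nat.beq c x, Nat.beq d x, Nat.beq e x with
    | false, false, false, false, false => true
    | _, _, _, _, _ => false
  | 1 => match Nat.beq b x, Nat.beq a x with
    | false, false => true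
    | _, _ => false
  | 2 => match Nat.beq c x, Nat.beq a x with
    | false, false => true
    | _, _ => false
  | 3 => match Nat.beq d x, Nat.beq a x with
    | false, false => true
    | _, _ => false
  | _ => match Nat.beq e x, Nat.beq a x with
    | false, false => true
    | _, _ => false

/-- the colour `x` does not occur on the leaves -/
def freshc (x b c d e : ℕ) : Bool :=
  match Nat.beq b x, Nat.beq c x, Nat.beq d x, Nat.beq e x with
    | false, false, false, false => true
    | _, _, _, _ => false

/-- pick `v`, give it the colour `x`, and continue with `K` -/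
def stepc (v x a b c d e : ℕ) (a' b' c' d' e' : Bool)
    (K : ℕ → ℕ → ℕ → ℕ → ℕ → Bool → Bool → Bool → Bool → Bool → Bool) : Bool :=
  match v with
  | 0 => K x b c d e true b' c' d' e'
  | 1 => K a x c d e a' true c' d' e'
  | 2 => K a b x d e a' b' true d' e'
  | 3 => K a b c x e a' b' c' true e'
  | _ => K a b c d x a' b' c' d' true

/-- Bob can win within `n` turns or reach after `n` turns the end of a round with a colouring
satisfying `Q` -/
def go (cs : List ℕ) (Q : ℕ → ℕ → ℕ → ℕ → ℕ → Bool) : ℕ → ℕ → ℕ → ℕ → ℕ → ℕ → Bool → Bool → Bool →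
    Bool → Bool → Bool → Bool
  | 0, a, b, c, d, e, a', b', c', d', e', _ => (a' && (b' && (c' && (d' && e')))) && Q a b c d e
  | n + 1, a, b, c, d, e, a', b', c', d', e', t =>
    match t with
    | true =>
      ([0, 1, 2, 3, 4].any fun v => !(fl a' b' c' d' e' v) && cs.all fun x => !(okc v x a b c d e)) ||
      (([4, 3, 2, 1].any fun v => !(fl a' b' c' d' e' v) && cs.any fun x => freshc x b c d e &&
        (okc v x a b c d e && stepc v x a b c d e a' b' c' d' e'
          (fun a b c d e a' b' c' d' e' => go cs Q n a b c d e a' b' c' d' e' false))) ||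
      ([4, 3, 2, 1, 0].any fun v => !(fl a' b' c' d' e' v) && cs.any fun x =>
        (okc v x a b c d e && stepc v x a b c d e a' b' c' d' e'
          (fun a b c d e a' b' c' d' e' => go cs Q n a b c d e a' b' c' d' e' false))))
    | false =>
      !(a' && (b' && (c' && (d' && e')))) &&
      [0, 1, 2, 3, 4].all fun v => fl a' b' c' d' e' v || cs.all fun x =>
        !(okc v x a b c d e) || stepc v x a b c d e a' b' c' d' e'
          (fun a b c d e a' b' c' d' e' => go cs Q n a b c d e a' b' c' d' e' true)

/-- Alice can survive `n` turns and reach then the end of a round with a colouring satisfying `Q` -/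
def ga (cs : List ℕ) (Q : ℕ → ℕ → ℕ → ℕ → ℕ → Bool) : ℕ → ℕ → ℕ → ℕ → ℕ → ℕ → Bool → Bool → Bool →
    Bool → Bool → Bool → Bool
  | 0, a, b, c, d, e, a', b', c', d', e', _ => (a' && (b' && (c' && (d' && e')))) && Q a b c d e
  | n + 1, a, b, c, d, e, a', b', c', d', e', t =>
    match t with
    | false =>
      [0, 1, 2, 3, 4].any fun v => !(fl a' b' c' d' e' v) && cs.any fun x =>
        (okc v x a b c d e && stepc v x a b c d e a' b' c' d' e'
          (fun a b c d e a' b' c' d' e' => ga cs Q n a b c d e a' b' c' d' e' true))
    | true =>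
      !(a' && (b' && (c' && (d' && e')))) &&
      [0, 1, 2, 3, 4].all fun v => fl a' b' c' d' e' v || ((cs.any fun x => okc v x a b c d e) &&
        cs.all fun x => !(okc v x a b c d e) || stepc v x a b c d e a' b' c' d' e'
          (fun a b c d e a' b' c' d' e' => ga cs Q n a b c d e a' b' c' d' e' false))

/-- all colours different from `a` occur on the leaves -/
def full (cs : List ℕ) (a b c d e : ℕ) : Bool := cs.all fun x => Nat.beq a x || !(freshc x b c d e)

/-- proper colouring of the star -/
def propc (a b c d e : ℕ) : Bool :=
  !(Nat.beq a b) && (!(Nat.beq a c) && (!(Nat.beq a d) && !(Nat.beq a e)))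

/-- at least two colours on the leaves -/
def two (b c d e : ℕ) : Bool := !(Nat.beq b c && (Nat.beq c d && Nat.beq d e))

/-- all colours are in the list -/
def inC (cs : List ℕ) (a b c d e : ℕ) : Bool :=
  cs.elem a && (cs.elem b && (cs.elem c && (cs.elem d && cs.elem e)))

/-- `P` holds for all full colourings -/
def allC (cs : List ℕ) (P : ℕ → ℕ → ℕ → ℕ → ℕ → Bool) : Bool :=
  cs.all fun a => cs.all fun b => cs.all fun c => cs.all fun d => cs.all fun e => P a b c d e

/-- the list of colours -/
def C4 : List ℕ := [1, 2, 3, 4]

/-- final positions for Bob's third round -/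
def Q1 (a b c d e : ℕ) : Bool := full C4 a b c d e && (propc a b c d e && inC C4 a b c d e)

/-- final positions for Bob's second round -/
def Q2 (a b c d e : ℕ) : Bool := two b c d e && (propc a b c d e && inC C4 a b c d e)

/-- final positions for Alice's first round -/
def P1 (a b c d e : ℕ) : Bool := !(full C4 a b c d e) && (propc a b c d e && inC C4 a b c d e)

/-! ### Correspondence of the two models -/

theorem toCol_eq (k n : ℕ) (x : Fin k) : toCol k n = some x ↔ n = x + 1 := by
  unfold toCol
  constructor
  · intro h
    split at h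
    · rename_i h1
      have := congrArg Fin.val (Option.some_injective _ h)
      simp only at this
      omega
    · cases h
  · intro h
    subst h
    rw [dif_pos ⟨by omega, by have := x.2; omega⟩]
    simp

theorem beq_false (n m : ℕ) : (!(Nat.beq n m)) = true ↔ n ≠ m := by
  rw [Bool.not_eq_true', ← Bool.not_eq_true, Nat.beq_eq]

theorem ok_iff (k : ℕ) (s : St) (v : Fin 5) (x : Fin k) :
    s.ok v (x + 1) = true ↔ Allowed star (toPos k s) v x := by
  have key : ∀ u : Fin 5, (toPos k s).col u ≠ some x ↔ s.get u ≠ x + 1 := by
    intro u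
    show toCol k (s.get u) ≠ some x ↔ _
    rw [ne_eq, toCol_eq]
  unfold Allowed
  simp only [key]
  fin_cases v
  · simp only [St.ok, Bool.and_eq_true, beq_false]
    constructor
    · rintro ⟨h0, h1, h2, h3, h4⟩
      refine ⟨h0, fun u _ => ?_⟩
      fin_cases u
      · exact h0
      · exact h1
      · exact h2
      · exact h3
      · exact h4
    · rintro ⟨h0, h⟩
      exact ⟨h0, h 1 ⟨by decide, Or.inl rfl⟩, h 2 ⟨by decide, Or.inl rfl⟩,
        h 3 ⟨by decide, Or.inl rfl⟩, h 4 ⟨by decide, Or.inl rfl⟩⟩
  all_goals
    simp only [St.ok, Bool.and_eq_true, beq_false]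
    constructor
    · rintro ⟨h0, h1⟩
      refine ⟨h0, fun u hu => ?_⟩
      obtain ⟨-, h | h⟩ := hu
      · exact absurd h (by decide)
      · subst h
        exact h1
    · rintro ⟨h0, h⟩
      exact ⟨h0, h 0 ⟨by decide, Or.inr rfl⟩⟩

theorem get_fin (a b c d e : ℕ) (a' b' c' d' e' t : Bool) (u : Fin 5) :
    (fin a b c d e a' b' c' d' e' t).get u =
      St.get ⟨a, b, c, d, e, false, false, false, false, false, false⟩ u := by
  unfold fin
  split <;> (fin_cases u <;> rfl)

theorem bob_fin (a b c d e : ℕ) (a' b' c' d' e' t : Bool) :
    (fin a b c d e a' b' c' d' e' t).t = t := by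
  unfold fin
  split <;> rfl

theorem all_fl (A B C D E : Bool) :
    (∀ u : Fin 5, fl A B C D E u = true) ↔ (A && (B && (C && (D && E)))) = true := by
  simp only [Bool.and_eq_true]
  constructor
  · intro h
    exact ⟨h 0, h 1, h 2, h 3, h 4⟩
  · rintro ⟨h0, h1, h2, h3, h4⟩ u
    fin_cases u
    · exact h0
    · exact h1
    · exact h2
    · exact h3
    · exact h4

theorem pick_fin_pos (a b c d e : ℕ) (A B C D E t : Bool)
    (h : ∀ u : Fin 5, fl A B C D E u = true) :
    (fun u : Fin 5 => (fin a b c d e A B C D E t).flag u) = fun _ => false := by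
  unfold fin
  rw [(all_fl _ _ _ _ _).1 h]
  funext u
  fin_cases u <;> rfl

theorem pick_fin_neg (a b c d e : ℕ) (A B C D E t : Bool)
    (h : ¬ ∀ u : Fin 5, fl A B C D E u = true) :
    (fun u : Fin 5 => (fin a b c d e A B C D E t).flag u) = fun u : Fin 5 => fl A B C D E u := by
  have h2 : ¬ (A && (B && (C && (D && E)))) = true := fun h' => h ((all_fl _ _ _ _ _).2 h')
  rw [Bool.not_eq_true] at h2
  unfold fin
  rw [h2]
  rfl

theorem next_eq (k : ℕ) (s : St) (v : Fin 5) (x : Fin k) :
    toPos k (s.next v (x + 1)) = next (toPos k s) v x := by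
  have hx : toCol k (x + 1) = some x := (toCol_eq k _ x).2 rfl
  have hcol : (toPos k (s.next v (x + 1))).col = (next (toPos k s) v x).col := by
    funext u
    show toCol k ((s.next v (x + 1)).get u) =
      Function.update (fun v : Fin 5 => toCol k (s.get v)) v (some x) u
    have h2 : (s.next v (x + 1)).get u = if u = v then ((x : ℕ) + 1) else s.get u := by
      fin_cases v <;> (refine (get_fin _ _ _ _ _ _ _ _ _ _ _ u).trans ?_) <;>
        fin_cases u <;> rfl
    rw [h2]
    by_cases huv : u = v
    · subst huv
      rw [if_pos rfl, Function.update_self, hx]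
    · rw [if_neg huv, Function.update_of_ne huv]
  have hupd : ∀ v : Fin 5, Function.update (fun v : Fin 5 => s.flag v) v true =
      fun u : Fin 5 => fl (decide (v = 0) || s.a') (decide (v = 1) || s.b')
        (decide (v = 2) || s.c') (decide (v = 3) || s.d') (decide (v = 4) || s.e') u := by
    intro v
    funext u
    by_cases huv : u = v
    · subst huv
      rw [Function.update_self]
      fin_cases u <;> rfl
    · rw [Function.update_of_ne huv]
      fin_cases v <;> fin_cases u <;> first | rfl | exact absurd rfl huv
  have hpick : (toPos k (s.next v (x + 1))).picked = (next (toPos k s) v x).picked := by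
    show (fun u : Fin 5 => (s.next v (x + 1)).flag u) = _
    by_cases h : ∀ u, Function.update (fun v : Fin 5 => s.flag v) v true u = true
    · have e1 : (next (toPos k s) v x).picked = fun _ => false := by
        unfold next
        exact if_pos h
      rw [e1]
      rw [hupd v] at h
      fin_cases v <;> exact pick_fin_pos _ _ _ _ _ _ _ _ _ _ _ h
    · have e1 : (next (toPos k s) v x).picked =
          Function.update (fun v : Fin 5 => s.flag v) v true := by
        unfold next
        exact if_neg h
      rw [e1]
      rw [hupd v] at h ⊢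
      fin_cases v <;> exact pick_fin_neg _ _ _ _ _ _ _ _ _ _ _ h
  have hbob : (toPos k (s.next v (x + 1))).bob = (next (toPos k s) v x).bob := by
    fin_cases v <;> exact bob_fin _ _ _ _ _ _ _ _ _ _ _
  have : ∀ p q : Pos (Fin 5) k, p.col = q.col → p.picked = q.picked → p.bob = q.bob → p = q := by
    rintro ⟨_, _, _⟩ ⟨_, _, _⟩ h1 h2 h3
    simp only at h1 h2 h3
    rw [h1, h2, h3]
  exact this _ _ hcol hpick hbob

theorem okc_eq (v : Fin 5) (x a b c d e : ℕ) (a' b' c' d' e' t : Bool) :
    okc v x a b c d e = St.ok ⟨a, b, c, d, e, a', b', c', d', e', t⟩ v x := by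
  fin_cases v
  · show (match Nat.beq a x, Nat.beq b x, Nat.beq c x, Nat.beq d x, Nat.beq e x with
      | false, false, false, false, false => true
      | _, _, _, _, _ => false) = (!(Nat.beq a x) && (!(Nat.beq b x) && (!(Nat.beq c x) &&
        (!(Nat.beq d x) && !(Nat.beq e x)))))
    cases Nat.beq a x <;> cases Nat.beq b x <;> cases Nat.beq c x <;> cases Nat.beq d x <;>
      cases Nat.beq e x <;> rfl
  · show (match Nat.beq b x, Nat.beq a x with
      | false, false => true
      | _, _ => false) = (!(Nat.beq b x) && !(Nat.beq a x))
    cases Nat.beq b x <;> cases Nat.beq a x <;> rfl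
  · show (match Nat.beq c x, Nat.beq a x with
      | false, false => true
      | _, _ => false) = (!(Nat.beq c x) && !(Nat.beq a x))
    cases Nat.beq c x <;> cases Nat.beq a x <;> rfl
  · show (match Nat.beq d x, Nat.beq a x with
      | false, false => true
      | _, _ => false) = (!(Nat.beq d x) && !(Nat.beq a x))
    cases Nat.beq d x <;> cases Nat.beq a x <;> rfl
  · show (match Nat.beq e x, Nat.beq a x with
      | false, false => true
      | _, _ => false) = (!(Nat.beq e x) && !(Nat.beq a x))
    cases Nat.beq e x <;> cases Nat.beq a x <;> rfl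

theorem mem_cols (k n : ℕ) : n ∈ cols k ↔ ∃ x : Fin k, n = x + 1 := by
  unfold cols
  rw [List.mem_map]
  constructor
  · rintro ⟨m, hm, rfl⟩
    rw [List.mem_range] at hm
    exact ⟨⟨m, hm⟩, rfl⟩
  · rintro ⟨x, rfl⟩
    exact ⟨x, List.mem_range.2 x.2, rfl⟩

/-- the player on turn `n` turns before `mv` is on turn -/
def mover : ℕ → Bool → Bool
  | 0, mv => mv
  | n + 1, mv => !(mover n mv)

theorem mem5 {v : ℕ} (h : v ∈ [0, 1, 2, 3, 4]) : ∃ w : Fin 5, (w : ℕ) = v := by
  simp only [List.mem_cons, List.not_mem_nil, or_false] at h
  exact ⟨⟨v, by omega⟩, rfl⟩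

theorem mem5' (w : Fin 5) : (w : ℕ) ∈ [0, 1, 2, 3, 4] := by
  fin_cases w <;> simp

/-- if some flag is not set, then no new round begins -/
theorem fin_raw (a b c d e : ℕ) (a' b' c' d' e' t : Bool)
    (h : (a' && (b' && (c' && (d' && e')))) = false) :
    fin a b c d e a' b' c' d' e' t = ⟨a, b, c, d, e, a', b', c', d', e', t⟩ := by
  unfold fin
  rw [h]

theorem fin_full (a b c d e : ℕ) (a' b' c' d' e' t : Bool)
    (h : (a' && (b' && (c' && (d' && e')))) = true) :
    fin a b c d e a' b' c' d' e' t = ⟨a, b, c, d, e, false, false, false, false, false, t⟩ := by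
  unfold fin
  rw [h]

theorem not_all {a' b' c' d' e' : Bool} (v : Fin 5) (h : fl a' b' c' d' e' v = false) :
    (a' && (b' && (c' && (d' && e')))) = false := by
  by_contra hne
  rw [Bool.not_eq_false] at hne
  have := (all_fl _ _ _ _ _).2 hne v
  rw [h] at this
  cases this

theorem go_sound (k : ℕ) (Q : ℕ → ℕ → ℕ → ℕ → ℕ → Bool) (r : ℕ) (mv : Bool)
    (hQ : ∀ a b c d e, Q a b c d e = true →
      BobForces star r (toPos k ⟨a, b, c, d, e, false, false, false, false, false, mv⟩)) :
    ∀ n a b c d e a' b' c' d' e', go (cols k) Q n a b c d e a' b' c' d' e' (mover n mv) = true →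
      BobForces star (n + r) (toPos k (fin a b c d e a' b' c' d' e' (mover n mv))) := by
  intro n
  induction n with
  | zero =>
    intro a b c d e a' b' c' d' e' h
    unfold go at h
    rw [Bool.and_eq_true] at h
    rw [fin_full _ _ _ _ _ _ _ _ _ _ _ h.1, Nat.zero_add]
    exact hQ _ _ _ _ _ h.2
  | succ n ih =>
    intro a b c d e a' b' c' d' e' h
    have hn : n + 1 + r = (n + r) + 1 := by omega
    rw [hn]
    -- one step
    have hstep : ∀ (t : Bool) (v : Fin 5) (x : Fin k), t = !(mover n mv) →
        stepc v (x + 1) a b c d e a' b' c' d' e' (fun a b c d e a' b' c' d' e' =>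
          go (cols k) Q n a b c d e a' b' c' d' e' (mover n mv)) = true →
        BobForces star (n + r) (next (toPos k ⟨a, b, c, d, e, a', b', c', d', e', t⟩) v x) := by
      intro t v x ht hs
      have ht' : (!t) = mover n mv := by rw [ht, Bool.not_not]
      rw [← next_eq]
      fin_cases v
      · show BobForces star (n + r) (toPos k (fin (x + 1) b c d e true b' c' d' e' (!t)))
        rw [ht']
        exact ih _ _ _ _ _ _ _ _ _ _ hs
      · show BobForces star (n + r) (toPos k (fin a (x + 1) c d e a' true c' d' e' (!t)))
        rw [ht']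
        exact ih _ _ _ _ _ _ _ _ _ _ hs
      · show BobForces star (n + r) (toPos k (fin a b (x + 1) d e a' b' true d' e' (!t)))
        rw [ht']
        exact ih _ _ _ _ _ _ _ _ _ _ hs
      · show BobForces star (n + r) (toPos k (fin a b c (x + 1) e a' b' c' true e' (!t)))
        rw [ht']
        exact ih _ _ _ _ _ _ _ _ _ _ hs
      · show BobForces star (n + r) (toPos k (fin a b c d (x + 1) a' b' c' d' true (!t)))
        rw [ht']
        exact ih _ _ _ _ _ _ _ _ _ _ hs
    have hok : ∀ (t : Bool) (v : Fin 5) (x : Fin k), okc v (x + 1) a b c d e = true ↔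
        Allowed star (toPos k ⟨a, b, c, d, e, a', b', c', d', e', t⟩) v x := by
      intro t v x
      rw [← ok_iff, okc_eq v (x + 1) a b c d e a' b' c' d' e' t]
    rcases hm : mover n mv with _ | _
    · -- Bob's turn
      have hm1 : mover (n + 1) mv = true := by
        show (!(mover n mv)) = true
        rw [hm]
        rfl
      rw [hm1] at h ⊢
      rw [hm] at hstep
      unfold go at h
      simp only [Bool.or_eq_true, List.any_eq_true, Bool.and_eq_true, List.all_eq_true,
        Bool.not_eq_true'] at h
      -- a pickable vertex which is stuck or a good move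
      have h2 : ∃ v : Fin 5, fl a' b' c' d' e' v = false ∧
          ((∀ x : Fin k, okc v (x + 1) a b c d e = false) ∨
            ∃ x : Fin k, okc v (x + 1) a b c d e = true ∧
              stepc v (x + 1) a b c d e a' b' c' d' e' (fun a b c d e a' b' c' d' e' =>
                go (cols k) Q n a b c d e a' b' c' d' e' false) = true) := by
        rcases h with ⟨v, hv, h1, h2⟩ | ⟨v, hv, h1, x, hx, -, h2, h3⟩ | ⟨v, hv, h1, x, hx, h2, h3⟩
        · obtain ⟨w, rfl⟩ := mem5 hv
          exact ⟨w, h1, Or.inl fun x => h2 _ ((mem_cols k _).2 ⟨x, rfl⟩)⟩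
        · obtain ⟨w, rfl⟩ := mem5 (v := v) (by
            simp only [List.mem_cons, List.not_mem_nil, or_false] at hv ⊢
            omega)
          obtain ⟨x, rfl⟩ := (mem_cols k _).1 hx
          exact ⟨w, h1, Or.inr ⟨x, h2, h3⟩⟩
        · obtain ⟨w, rfl⟩ := mem5 (v := v) (by
            simp only [List.mem_cons, List.not_mem_nil, or_false] at hv ⊢
            omega)
          obtain ⟨x, rfl⟩ := (mem_cols k _).1 hx
          exact ⟨w, h1, Or.inr ⟨x, h2, h3⟩⟩
      obtain ⟨v, hv, h2⟩ := h2
      rw [fin_raw _ _ _ _ _ _ _ _ _ _ _ (not_all v hv)]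
      unfold BobForces
      rw [if_pos (show (toPos k ⟨a, b, c, d, e, a', b', c', d', e', true⟩).bob = true from rfl)]
      refine ⟨v, hv, ?_⟩
      rcases h2 with h2 | ⟨x, hx, h3⟩
      · left
        intro x hx
        rw [← hok, h2 x] at hx
        cases hx
      · right
        exact ⟨x, (hok _ _ _).1 hx, hstep true v x rfl h3⟩
    · -- Alice's turn
      have hm1 : mover (n + 1) mv = false := by
        show (!(mover n mv)) = false
        rw [hm]
        rfl
      rw [hm1] at h ⊢
      rw [hm] at hstep
      unfold go at h
      simp only [Bool.or_eq_true, Bool.and_eq_true, List.all_eq_true,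
        Bool.not_eq_true'] at h
      obtain ⟨h0, h⟩ := h
      rw [fin_raw _ _ _ _ _ _ _ _ _ _ _ h0]
      unfold BobForces
      rw [if_neg (show ¬ (toPos k ⟨a, b, c, d, e, a', b', c', d', e', false⟩).bob = true from
        fun hh => by cases hh)]
      intro v hv x hx
      have hv' : fl a' b' c' d' e' v = false := hv
      rcases h v (mem5' v) with h1 | h1
      · rw [hv'] at h1
        cases h1
      · rcases h1 _ ((mem_cols k _).2 ⟨x, rfl⟩) with h2 | h2
        · rw [← hok, h2] at hx
          cases hx
        · exact hstep false v x rfl h2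

theorem ga_sound (k : ℕ) (Q : ℕ → ℕ → ℕ → ℕ → ℕ → Bool) (r : ℕ) (mv : Bool)
    (hQ : ∀ a b c d e, Q a b c d e = true →
      ¬ BobForces star r (toPos k ⟨a, b, c, d, e, false, false, false, false, false, mv⟩)) :
    ∀ n a b c d e a' b' c' d' e', ga (cols k) Q n a b c d e a' b' c' d' e' (mover n mv) = true →
      ¬ BobForces star (n + r) (toPos k (fin a b c d e a' b' c' d' e' (mover n mv))) := by
  intro n
  induction n with
  | zero =>
    intro a b c d e a' b' c' d' e' h
    unfold ga at h
    rw [Bool.and_eq_true] at h
    rw [fin_full _ _ _ _ _ _ _ _ _ _ _ h.1, Nat.zero_add]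
    exact hQ _ _ _ _ _ h.2
  | succ n ih =>
    intro a b c d e a' b' c' d' e' h
    have hn : n + 1 + r = (n + r) + 1 := by omega
    rw [hn]
    have hstep : ∀ (t : Bool) (v : Fin 5) (x : Fin k), t = !(mover n mv) →
        stepc v (x + 1) a b c d e a' b' c' d' e' (fun a b c d e a' b' c' d' e' =>
          ga (cols k) Q n a b c d e a' b' c' d' e' (mover n mv)) = true →
        ¬ BobForces star (n + r) (next (toPos k ⟨a, b, c, d, e, a', b', c', d', e', t⟩) v x) := by
      intro t v x ht hs
      have ht' : (!t) = mover n mv := by rw [ht, Bool.not_not]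
      rw [← next_eq]
      fin_cases v
      · show ¬ BobForces star (n + r) (toPos k (fin (x + 1) b c d e true b' c' d' e' (!t)))
        rw [ht']
        exact ih _ _ _ _ _ _ _ _ _ _ hs
      · show ¬ BobForces star (n + r) (toPos k (fin a (x + 1) c d e a' true c' d' e' (!t)))
        rw [ht']
        exact ih _ _ _ _ _ _ _ _ _ _ hs
      · show ¬ BobForces star (n + r) (toPos k (fin a b (x + 1) d e a' b' true d' e' (!t)))
        rw [ht']
        exact ih _ _ _ _ _ _ _ _ _ _ hs
      · show ¬ BobForces star (n + r) (toPos k (fin a b c (x + 1) e a' b' c' true e' (!t)))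
        rw [ht']
        exact ih _ _ _ _ _ _ _ _ _ _ hs
      · show ¬ BobForces star (n + r) (toPos k (fin a b c d (x + 1) a' b' c' d' true (!t)))
        rw [ht']
        exact ih _ _ _ _ _ _ _ _ _ _ hs
    have hok : ∀ (t : Bool) (v : Fin 5) (x : Fin k), okc v (x + 1) a b c d e = true ↔
        Allowed star (toPos k ⟨a, b, c, d, e, a', b', c', d', e', t⟩) v x := by
      intro t v x
      rw [← ok_iff, okc_eq v (x + 1) a b c d e a' b' c' d' e' t]
    rcases hm : mover n mv with _ | _
    · -- Bob's turn
      have hm1 : mover (n + 1) mv = true := by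
        show (!(mover n mv)) = true
        rw [hm]
        rfl
      rw [hm1] at h ⊢
      rw [hm] at hstep
      unfold ga at h
      simp only [Bool.or_eq_true, Bool.and_eq_true, List.all_eq_true, List.any_eq_true,
        Bool.not_eq_true'] at h
      obtain ⟨h0, h⟩ := h
      rw [fin_raw _ _ _ _ _ _ _ _ _ _ _ h0]
      unfold BobForces
      rw [if_pos (show (toPos k ⟨a, b, c, d, e, a', b', c', d', e', true⟩).bob = true from rfl)]
      rintro ⟨v, hv, h2⟩
      have hv' : fl a' b' c' d' e' v = false := hv
      rcases h v (mem5' v) with h1 | ⟨⟨x, hx, h1⟩, h3⟩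
      · rw [hv'] at h1
        cases h1
      · rcases h2 with h2 | ⟨y, hy, h2⟩
        · obtain ⟨x, rfl⟩ := (mem_cols k _).1 hx
          exact h2 x ((hok _ _ _).1 h1)
        · rcases h3 _ ((mem_cols k _).2 ⟨y, rfl⟩) with h4 | h4
          · rw [← hok, h4] at hy
            cases hy
          · exact hstep true v y rfl h4 h2
    · -- Alice's turn
      have hm1 : mover (n + 1) mv = false := by
        show (!(mover n mv)) = false
        rw [hm]
        rfl
      rw [hm1] at h ⊢
      rw [hm] at hstep
      unfold ga at h
      simp only [List.any_eq_true, Bool.and_eq_true, Bool.not_eq_true'] at h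
      obtain ⟨v, hv, h1, x, hx, h2, h3⟩ := h
      obtain ⟨v, rfl⟩ := mem5 hv
      obtain ⟨x, rfl⟩ := (mem_cols k _).1 hx
      rw [fin_raw _ _ _ _ _ _ _ _ _ _ _ (not_all v h1)]
      unfold BobForces
      rw [if_neg (show ¬ (toPos k ⟨a, b, c, d, e, a', b', c', d', e', false⟩).bob = true from
        fun hh => by cases hh)]
      intro hall
      exact hstep false v x rfl h3 (hall v h1 x ((hok _ _ _).1 h2))

theorem allC_spec {cs : List ℕ} {P : ℕ → ℕ → ℕ → ℕ → ℕ → Bool} (h : allC cs P = true)
    (a b c d e : ℕ) (hin : inC cs a b c d e = true) : P a b c d e = true := by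
  unfold inC at hin
  simp only [Bool.and_eq_true, List.elem_eq_mem, decide_eq_true_eq] at hin
  obtain ⟨ha, hb, hc, hd, he⟩ := hin
  unfold allC at h
  simp only [List.all_eq_true] at h
  exact h a ha b hb c hc d hd e he

/-! ### The computations -/

theorem comp1 : (allC C4 fun a b c d e => !(Q1 a b c d e) ||
    go C4 (fun _ _ _ _ _ => false) 5 a b c d e false false false false false false) = true := by
  decide +kernel

theorem comp2 : (allC C4 fun a b c d e => !(Q2 a b c d e) ||
    go C4 Q1 5 a b c d e false false false false false true) = true := by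
  decide +kernel

theorem comp3 : go C4 Q2 5 0 0 0 0 0 false false false false false false = true := by
  decide +kernel

theorem comp4 : (allC C4 fun a b c d e => !(P1 a b c d e) ||
    ga C4 (fun _ _ _ _ _ => true) 5 a b c d e false false false false false true) = true := by
  decide +kernel

theorem comp5 : ga C4 P1 5 0 0 0 0 0 false false false false false false = true := by
  decide +kernel

/-- proper colourings with colours in the list -/
def Q0 (cs : List ℕ) (a b c d e : ℕ) : Bool := propc a b c d e && inC cs a b c d e

theorem comp6 : (allC [1, 2, 3] fun a b c d e => !(Q0 [1, 2, 3] a b c d e) ||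
    go [1, 2, 3] (fun _ _ _ _ _ => false) 5 a b c d e false false false false false true) =
    true := by
  decide +kernel

theorem comp7 : go [1, 2, 3] (Q0 [1, 2, 3]) 5 0 0 0 0 0 false false false false false false =
    true := by
  decide +kernel

theorem comp8 : (allC [1, 2] fun a b c d e => !(Q0 [1, 2] a b c d e) ||
    go [1, 2] (fun _ _ _ _ _ => false) 5 a b c d e false false false false false true) =
    true := by
  decide +kernel

theorem comp9 : go [1, 2] (Q0 [1, 2]) 5 0 0 0 0 0 false false false false false false =
    true := by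
  decide +kernel

theorem comp10 : go [1] (fun _ _ _ _ _ => false) 2 0 0 0 0 0 false false false false false false =
    true := by
  decide +kernel

theorem comp11 : go [] (fun _ _ _ _ _ => false) 1 0 0 0 0 0 false false false false false false =
    true := by
  decide +kernel

/-! ### Conclusion -/

theorem init_pos (k : ℕ) :
    toPos k ⟨0, 0, 0, 0, 0, false, false, false, false, false, false⟩ = start (Fin 5) k := by
  have h0 : toCol k 0 = none := by
    unfold toCol
    exact dif_neg (by omega)
  have h1 : (fun v : Fin 5 => toCol k (St.get ⟨0, 0, 0, 0, 0, false, false, false, false, false,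
      false⟩ v)) = fun _ => none := by
    funext v
    fin_cases v <;> exact h0
  have h2 : (fun v : Fin 5 => St.flag ⟨0, 0, 0, 0, 0, false, false, false, false, false,
      false⟩ v) = fun _ => false := by
    funext v
    fin_cases v <;> rfl
  unfold toPos start
  rw [h1, h2]

theorem or_elim {p q : Bool} (h : (!p || q) = true) (hp : p = true) : q = true := by
  rw [hp] at h
  exact h

theorem cols_four : cols 4 = C4 := by decide

theorem bob_four_1 (a b c d e : ℕ) (h : Q1 a b c d e = true) :
    BobForces star 5 (toPos 4 ⟨a, b, c, d, e, false, false, false, false, false, false⟩) := by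
  have hin : inC C4 a b c d e = true := by
    unfold Q1 at h
    simp only [Bool.and_eq_true] at h
    exact h.2.2
  have h1 := or_elim (allC_spec comp1 a b c d e hin) h
  have := go_sound 4 (fun _ _ _ _ _ => false) 0 true (fun _ _ _ _ _ hh => by cases hh) 5 a b c d e
    false false false false false (by rw [cols_four]; exact h1)
  exact this

theorem bob_four_2 (a b c d e : ℕ) (h : Q2 a b c d e = true) :
    BobForces star 10 (toPos 4 ⟨a, b, c, d, e, false, false, false, false, false, true⟩) := by
  have hin : inC C4 a b c d e = true := by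
    unfold Q2 at h
    simp only [Bool.and_eq_true] at h
    exact h.2.2
  have h1 := or_elim (allC_spec comp2 a b c d e hin) h
  have := go_sound 4 Q1 5 false bob_four_1 5 a b c d e
    false false false false false (by rw [cols_four]; exact h1)
  exact this

theorem bob_four : BobForces star 15 (start (Fin 5) 4) := by
  have := go_sound 4 Q2 10 true bob_four_2 5 0 0 0 0 0
    false false false false false (by rw [cols_four]; exact comp3)
  rw [← init_pos]
  exact this

theorem alice_four_1 (a b c d e : ℕ) (h : P1 a b c d e = true) :
    ¬ BobForces star 5 (toPos 4 ⟨a, b, c, d, e, false, false, false, false, false, true⟩) := by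
  have hin : inC C4 a b c d e = true := by
    unfold P1 at h
    simp only [Bool.and_eq_true] at h
    exact h.2.2
  have h1 := or_elim (allC_spec comp4 a b c d e hin) h
  have := ga_sound 4 (fun _ _ _ _ _ => true) 0 false (fun _ _ _ _ _ _ hh => hh) 5 a b c d e
    false false false false false (by rw [cols_four]; exact h1)
  exact this

theorem alice_four : ¬ BobForces star 10 (start (Fin 5) 4) := by
  have := ga_sound 4 P1 5 true alice_four_1 5 0 0 0 0 0
    false false false false false (by rw [cols_four]; exact comp5)
  rw [← init_pos]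
  exact this

theorem bob_three : BobForces star 10 (start (Fin 5) 3) := by
  have hc : cols 3 = [1, 2, 3] := by decide
  have h1 : ∀ a b c d e, Q0 [1, 2, 3] a b c d e = true →
      BobForces star 5 (toPos 3 ⟨a, b, c, d, e, false, false, false, false, false, true⟩) := by
    intro a b c d e h
    have hin : inC [1, 2, 3] a b c d e = true := by
      unfold Q0 at h
      simp only [Bool.and_eq_true] at h
      exact h.2
    have h1 := or_elim (allC_spec comp6 a b c d e hin) h
    have := go_sound 3 (fun _ _ _ _ _ => false) 0 false (fun _ _ _ _ _ hh => by cases hh) 5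
      a b c d e false false false false false (by rw [hc]; exact h1)
    exact this
  have := go_sound 3 (Q0 [1, 2, 3]) 5 true h1 5 0 0 0 0 0
    false false false false false (by rw [hc]; exact comp7)
  rw [← init_pos]
  exact this

theorem bob_two : BobForces star 10 (start (Fin 5) 2) := by
  have hc : cols 2 = [1, 2] := by decide
  have h1 : ∀ a b c d e, Q0 [1, 2] a b c d e = true →
      BobForces star 5 (toPos 2 ⟨a, b, c, d, e, false, false, false, false, false, true⟩) := by
    intro a b c d e h
    have hin : inC [1, 2] a b c d e = true := by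
      unfold Q0 at h
      simp only [Bool.and_eq_true] at h
      exact h.2
    have h1 := or_elim (allC_spec comp8 a b c d e hin) h
    have := go_sound 2 (fun _ _ _ _ _ => false) 0 false (fun _ _ _ _ _ hh => by cases hh) 5
      a b c d e false false false false false (by rw [hc]; exact h1)
    exact this
  have := go_sound 2 (Q0 [1, 2]) 5 true h1 5 0 0 0 0 0
    false false false false false (by rw [hc]; exact comp9)
  rw [← init_pos]
  exact this

theorem bob_one : BobForces star 2 (start (Fin 5) 1) := by
  have hc : cols 1 = [1] := by decide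
  have := go_sound 1 (fun _ _ _ _ _ => false) 0 false (fun _ _ _ _ _ hh => by cases hh) 2 0 0 0 0 0
    false false false false false (by rw [hc]; exact comp10)
  rw [← init_pos]
  exact this

theorem bob_zero : BobForces star 1 (start (Fin 5) 0) := by
  have hc : cols 0 = [] := by decide
  have := go_sound 0 (fun _ _ _ _ _ => false) 0 true (fun _ _ _ _ _ hh => by cases hh) 1 0 0 0 0 0
    false false false false false (by rw [hc]; exact comp11)
  rw [← init_pos]
  exact this

/-- **Theorem.** For the star `K_{1,4}` and `k = 4 < χ_g^∞(K_{1,4})` colours, the least number of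
rounds in which Bob can force a win is `3`. -/
theorem result : 4 < eternalChi star ∧ rounds star 4 = 3 := by
  constructor
  · have h6 : AliceWins star 6 := aliceWins_of_card (by rw [Fintype.card_fin]; norm_num)
    have hmem : AliceWins star (eternalChi star) :=
      Nat.sInf_mem (s := {k | AliceWins star k}) ⟨6, h6⟩
    by_contra hle
    have hle' : eternalChi star ≤ 4 := by omega
    have hcases : ∀ k ≤ 4, ¬ AliceWins star k := by
      intro k hk
      have : k = 0 ∨ k = 1 ∨ k = 2 ∨ k = 3 ∨ k = 4 := by omega
      rcases this with rfl | rfl | rfl | rfl | rfl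
      · exact not_aliceWins bob_zero
      · exact not_aliceWins bob_one
      · exact not_aliceWins bob_two
      · exact not_aliceWins bob_three
      · exact not_aliceWins bob_four
    exact hcases _ hle' hmem
  · have h3 : 3 ∈ {r | BobForces star (r * Fintype.card (Fin 5)) (start (Fin 5) 4)} := by
      show BobForces star (3 * Fintype.card (Fin 5)) (start (Fin 5) 4)
      rw [Fintype.card_fin]
      exact bob_four
    refine le_antisymm (Nat.sInf_le h3) (le_csInf ⟨3, h3⟩ ?_)
    intro r hr
    by_contra hlt
    have hr' : BobForces star (r * Fintype.card (Fin 5)) (start (Fin 5) 4) := hr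
    rw [Fintype.card_fin] at hr'
    exact alice_four (bobForces_mono (by omega) hr')

end Pool.Agent.Results.MP_16080b_co.ThreeRounds
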